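import Pool.Agent.TH41.Mermin

/-!
Isomorphism game algebras of graphs do not always embed into the full group C*-algebra of a
solution group: for two explicit graphs with 24 vertices the isomorphism game algebra is not zero
and has no unital `*`-homomorphism to the full group C*-algebra of any group.
-/

set_option autoImplicit false

open scoped commutatorElement

namespace Pool.Agent.Results.MP_3b70de_al.NoEmbedding

/-- The vertices `g, g'` of `G` and the vertices `h, h'` of `H` stand in the same relation: both
pairs are equal, or both are adjacent, or both are distinct and non-adjacent. -/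
def SameRelation {V W : Type} (G : SimpleGraph V) (H : SimpleGraph W) (g g' : V) (h h' : W) :
    Prop :=
  (g = g' ↔ h = h') ∧ (G.Adj g g' ↔ H.Adj h h')

/-- The relations of the isomorphism game of `G` and `H` for elements `p g h` of a unital
C*-algebra: they are projections, rows and columns sum up to `1`, and `p g h * p g' h' = 0` if the
relation of `g, g'` differs from the relation of `h, h'`. -/
def GameRelations {V W : Type} [Fintype V] [Fintype W] (G : SimpleGraph V) (H : SimpleGraph W)
    (A : Type) [CStarAlgebra A] (p : V → W → A) : Prop :=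
  (∀ g h, p g h * p g h = p g h ∧ star (p g h) = p g h) ∧
  (∀ g, ∑ h, p g h = 1) ∧ (∀ h, ∑ g, p g h = 1) ∧
  ∀ g g' h h', ¬ SameRelation G H g g' h h' → p g h * p g' h' = 0

/-- `A` with the elements `p g h` is the isomorphism game algebra of `G` and `H`: the universal
unital C*-algebra generated by elements with the game relations. -/
def IsIsomorphismGameAlgebra {V W : Type} [Fintype V] [Fintype W] (G : SimpleGraph V)
    (H : SimpleGraph W) (A : Type) [CStarAlgebra A] (p : V → W → A) : Prop :=
  GameRelations G H A p ∧
    ∀ (B : Type) [CStarAlgebra B] (q : V → W → B), GameRelations G H B q →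
      ∃! φ : A →⋆ₐ[ℂ] B, ∀ g h, φ (p g h) = q g h

/-- The relators of the solution group of the binary linear system `M x = b`, in the free group
on `J` (here `none`) and `g_1, …, g_n` (here `some i`): `J²`, `g_i²`, the commutators of `J` and
`g_i`, the commutators of `g_i` and `g_j` if some row `k` has `M k i = M k j = 1`, and the
quotients of `∏ i, g_i ^ (M k i)` (in increasing order of `i`) and `J ^ (b k)`. -/
def relators {m n : ℕ} (M : Matrix (Fin m) (Fin n) (ZMod 2)) (b : Fin m → ZMod 2) :
    Set (FreeGroup (Option (Fin n))) :=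
  {w | w = FreeGroup.of none ^ 2 ∨
    (∃ i : Fin n, w = FreeGroup.of (some i) ^ 2) ∨
    (∃ i : Fin n, w = ⁅(FreeGroup.of none : FreeGroup (Option (Fin n))),
      FreeGroup.of (some i)⁆) ∨
    (∃ (i j : Fin n) (k : Fin m), M k i = 1 ∧ M k j = 1 ∧
      w = ⁅(FreeGroup.of (some i) : FreeGroup (Option (Fin n))), FreeGroup.of (some j)⁆) ∨
    ∃ k : Fin m, w = ((List.finRange n).map
      fun i => FreeGroup.of (some i) ^ (M k i).val).prod * (FreeGroup.of none ^ (b k).val)⁻¹}

/-- The solution group `Γ(M, b)`. -/
abbrev SolutionGroup {m n : ℕ} (M : Matrix (Fin m) (Fin n) (ZMod 2)) (b : Fin m → ZMod 2) : Type :=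
  PresentedGroup (relators M b)

/-- `C` with the unitaries `u g` is the full group C*-algebra of `Γ`: every unitary representation
of `Γ` in a unital C*-algebra extends uniquely to a unital `*`-homomorphism on `C`. -/
def IsFullGroupCStarAlgebra (Γ : Type) [Group Γ] (C : Type) [CStarAlgebra C]
    (u : Γ →* unitary C) : Prop :=
  ∀ (B : Type) [CStarAlgebra B] (v : Γ →* unitary B),
    ∃! φ : C →⋆ₐ[ℂ] B, ∀ g, φ (u g) = v g

/-- There are finite graphs `G, H` whose isomorphism game algebra is not zero, but for every binary
linear system `M x = b` there is no unital `*`-homomorphism at all, in particular no embedding,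
from the isomorphism game algebra of `G` and `H` into the full group C*-algebra of the solution
group `Γ(M, b)`.  (The two kinds of universal algebras exist, and what is said here holds for every
model of them.) -/
theorem result :
    ∃ (V W : Type) (_ : Fintype V) (_ : Fintype W) (G : SimpleGraph V) (H : SimpleGraph W),
      (∃ (A : Type) (_ : CStarAlgebra A) (p : V → W → A), IsIsomorphismGameAlgebra G H A p) ∧
      ∀ (A : Type) [CStarAlgebra A] (p : V → W → A), IsIsomorphismGameAlgebra G H A p →
        Nontrivial A ∧
        ∀ (m n : ℕ) (M : Matrix (Fin m) (Fin n) (ZMod 2)) (b : Fin m → ZMod 2),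
          (∃ (C : Type) (_ : CStarAlgebra C) (u : SolutionGroup M b →* unitary C),
            IsFullGroupCStarAlgebra (SolutionGroup M b) C u) ∧
          ∀ (C : Type) [CStarAlgebra C] (u : SolutionGroup M b →* unitary C),
            IsFullGroupCStarAlgebra (SolutionGroup M b) C u →
              IsEmpty (A →⋆ₐ[ℂ] C) ∧ ¬ ∃ φ : A →⋆ₐ[ℂ] C, Function.Injective φ := by
  refine ⟨Pool.Agent.TH41.Mermin.VV, Pool.Agent.TH41.Mermin.VV, inferInstance, inferInstance,
    Pool.Agent.TH41.Mermin.GG 1, Pool.Agent.TH41.Mermin.GG 0,
    Pool.Agent.TH41.Game.exists_game _ _, ?_⟩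
  intro A _ p hA
  refine ⟨?_, ?_⟩
  · exact Pool.Agent.TH41.Mermin.nontrivial_of_univ p hA
  · intro m n M b
    refine ⟨Pool.Agent.TH41.Game.exists_full _, ?_⟩
    intro C _ u hC
    have key : IsEmpty (A →⋆ₐ[ℂ] C) := by
      refine ⟨fun φ => ?_⟩
      obtain ⟨ε, _, _⟩ := hC ℂ 1
      exact Pool.Agent.TH41.Mermin.no_char p hA.1 (ε.comp φ)
    exact ⟨key, fun ⟨φ, _⟩ => key.elim φ⟩

end Pool.Agent.Results.MP_3b70de_al.NoEmbedding
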